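import Pool.Agent.H77.RZ.Stmts
import Pool.Agent.H91.AVS.Places
import Pool.Agent.H2.AVR.BIR

/-!
# INF: the lattice at infinity, when the cubic is irreducible at infinity
-/

set_option autoImplicit false

namespace Pool.RZ.INF

open Polynomial Matrix Pool.AVR Pool.AVS

/-- The values `τ(X^k)`. -/
def tt {R : Type} [CommRing R] (a b c : R) : ℕ → R
  | 0 => 0
  | 1 => 0
  | 2 => 1
  | (k + 3) => -(a * tt a b c (k + 2)) - b * tt a b c (k + 1) - c * tt a b c k

theorem tt_map {R S : Type} [CommRing R] [CommRing S] (φ : R →+* S) (a b c : R) (k : ℕ) :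
    φ (tt a b c k) = tt (φ a) (φ b) (φ c) k := by
  induction k using Nat.strong_induction_on with
  | _ k ih =>
    match k with
    | 0 => simp [tt]
    | 1 => simp [tt]
    | 2 => simp [tt]
    | (k + 3) =>
      rw [tt, tt, map_sub, map_sub, map_neg, map_mul, map_mul, map_mul, ih (k + 2) (by omega),
        ih (k + 1) (by omega), ih k (by omega)]

theorem tt_scale {R : Type} [CommRing R] (a b c s : R) (k : ℕ) :
    tt (a * s) (b * s ^ 2) (c * s ^ 3) k * s ^ 2 = s ^ k * tt a b c k := by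
  induction k using Nat.strong_induction_on with
  | _ k ih =>
    match k with
    | 0 => simp [tt]
    | 1 => simp [tt]
    | 2 => simp [tt]
    | (k + 3) =>
      rw [tt, tt]
      linear_combination (-(a * s)) * ih (k + 2) (by omega) - b * s ^ 2 * ih (k + 1) (by omega) -
        c * s ^ 3 * ih k (by omega)

section field

variable {K : Type} [Field K] (a b c : K)

theorem cub_monic : (cub a b c).Monic := by
  unfold cub
  monicity!

theorem cub_natDegree : (cub a b c).natDegree = 3 := by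
  unfold cub
  compute_degree!

theorem tau_add (p q : K[X]) : tau a b c (p + q) = tau a b c p + tau a b c q := by
  unfold tau
  rw [add_modByMonic, coeff_add]

theorem tau_C_mul (r : K) (p : K[X]) : tau a b c (C r * p) = r * tau a b c p := by
  unfold tau
  rw [← smul_eq_C_mul, smul_modByMonic, coeff_smul, smul_eq_mul]

theorem tau_cub (p : K[X]) : tau a b c (cub a b c * p) = 0 := by
  unfold tau
  rw [self_mul_modByMonic (cub_monic a b c), coeff_zero]

theorem tau_X_pow (k : ℕ) : tau a b c (X ^ k) = tt a b c k := by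
  induction k using Nat.strong_induction_on with
  | _ k ih =>
    match k with
    | 0 =>
      unfold tau
      rw [(modByMonic_eq_self_iff (cub_monic a b c)).2]
      · simp [tt, coeff_one]
      · rw [degree_eq_natDegree (cub_monic a b c).ne_zero, cub_natDegree, pow_zero, degree_one]
        norm_num
    | 1 =>
      unfold tau
      rw [(modByMonic_eq_self_iff (cub_monic a b c)).2]
      · simp [tt, coeff_X]
      · rw [degree_eq_natDegree (cub_monic a b c).ne_zero, cub_natDegree, degree_X_pow]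
        norm_num
    | 2 =>
      unfold tau
      rw [(modByMonic_eq_self_iff (cub_monic a b c)).2]
      · simp [tt]
      · rw [degree_eq_natDegree (cub_monic a b c).ne_zero, cub_natDegree, degree_X_pow]
        norm_num
    | (k + 3) =>
      have h : (X : K[X]) ^ (k + 3) = cub a b c * X ^ k + (C (-a) * X ^ (k + 2) +
          (C (-b) * X ^ (k + 1) + C (-c) * X ^ k)) := by
        unfold cub
        rw [C_neg, C_neg, C_neg]
        ring
      rw [h, tau_add, tau_add, tau_add, tau_cub, tau_C_mul, tau_C_mul, tau_C_mul,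
        ih (k + 2) (by omega), ih (k + 1) (by omega), ih k (by omega), tt]
      ring

/-- The polynomial with the coefficients `u`. -/
noncomputable def pl (u : Fin 3 → K) : K[X] := C (u 0) + (C (u 1) * X + C (u 2) * X ^ 2)

theorem tau_pl (u : Fin 3 → K) (k : ℕ) : tau a b c (X ^ k * pl u) =
    u 0 * tt a b c k + u 1 * tt a b c (k + 1) + u 2 * tt a b c (k + 2) := by
  have h : X ^ k * pl u = C (u 0) * X ^ k + (C (u 1) * X ^ (k + 1) + C (u 2) * X ^ (k + 2)) := by
    unfold pl
    ring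
  rw [h, tau_add, tau_add, tau_C_mul, tau_C_mul, tau_C_mul, tau_X_pow, tau_X_pow, tau_X_pow]
  ring

theorem exists_pl (h : K[X]) : ∃ u : Fin 3 → K, cub a b c ∣ h - pl u := by
  refine ⟨fun i => (h %ₘ cub a b c).coeff i, ?_⟩
  have hd : (h %ₘ cub a b c).natDegree < 3 := by
    have h1 := natDegree_modByMonic_lt h (cub_monic a b c) (by
      intro h1
      have := cub_natDegree a b c
      rw [h1] at this
      simp at this)
    rwa [cub_natDegree] at h1
  have h2 : pl (fun i : Fin 3 => (h %ₘ cub a b c).coeff i) = h %ₘ cub a b c := by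
    conv_rhs => rw [as_sum_range' _ 3 hd]
    simp only [Finset.sum_range_succ, Finset.sum_range_zero, zero_add, ← C_mul_X_pow_eq_monomial]
    simp [pl, add_assoc]
  rw [h2]
  exact ⟨h /ₘ cub a b c, by
    have := modByMonic_add_div h (cub a b c)
    linear_combination -this⟩

theorem tau_congr' {p q : K[X]} (h : cub a b c ∣ p - q) : tau a b c p = tau a b c q := by
  obtain ⟨r, hr⟩ := h
  have h1 : p = q + cub a b c * r := by rw [← hr]; ring
  rw [h1, tau_add, tau_cub, add_zero]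

/-- The Gram matrix with the coefficients `u`. -/
def gm {R : Type} [CommRing R] (a b c : R) (u : Fin 3 → R) (l : ℕ) : Matrix (Fin 3) (Fin 3) R :=
  Matrix.of fun i j => u 0 * tt a b c (i + j + l) + u 1 * tt a b c (i + j + l + 1) +
    u 2 * tt a b c (i + j + l + 2)

theorem gr0_eq (h : K[X]) (u : Fin 3 → K) (hu : cub a b c ∣ h - pl u) :
    gr0 a b c h = gm a b c u 0 := by
  ext i j
  simp only [gr0, gm, Matrix.of_apply]
  rw [← tau_pl, add_zero, pow_add]
  refine tau_congr' a b c ?_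
  rw [← mul_sub]
  exact hu.mul_left _

theorem gr1_eq (h : K[X]) (u : Fin 3 → K) (hu : cub a b c ∣ h - pl u) :
    gr1 a b c h = gm a b c u 1 := by
  ext i j
  simp only [gr1, gm, Matrix.of_apply]
  rw [← tau_pl]
  refine tau_congr' a b c ?_
  have h1 : X * (X ^ (i : ℕ) * X ^ (j : ℕ) * h) - X ^ ((i : ℕ) + j + 1) * pl u =
      X ^ ((i : ℕ) + j + 1) * (h - pl u) := by ring
  rw [h1]
  exact hu.mul_left _

theorem gm_map {R S : Type} [CommRing R] [CommRing S] (φ : R →+* S) (a b c : R) (u : Fin 3 → R)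
    (l : ℕ) : (gm a b c u l).map φ = gm (φ a) (φ b) (φ c) (fun i => φ (u i)) l := by
  ext i j
  simp only [gm, Matrix.map_apply, Matrix.of_apply, map_add, map_mul, tt_map]

/-- The Gram determinant does not vanish for an irreducible cubic. -/
theorem det_gm_ne (hNGH : NGHStmt) (u : Fin 3 → K) (hu : ∃ i, u i ≠ 0)
    (hroot : ∀ x : K, x ^ 3 + a * x ^ 2 + b * x + c ≠ 0) : (gm a b c u 0).det ≠ 0 := by
  have h1 : gr0 a b c (pl u) = gm a b c u 0 := gr0_eq a b c _ u (by simp)
  rw [← h1, (hNGH K a b c (pl u)).2.1, neg_ne_zero]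
  have hirr : Irreducible (cub a b c) := by
    refine irreducible_of_degree_le_three_of_not_isRoot ?_ ?_
    · rw [cub_natDegree]
      decide
    · intro x hx
      apply hroot x
      simpa [cub, IsRoot] using hx
  have : Fact (Irreducible (cub a b c)) := ⟨hirr⟩
  have hfin : Module.Finite K (AdjoinRoot (cub a b c)) :=
    (AdjoinRoot.powerBasis' (cub_monic a b c)).finite
  rw [Algebra.norm_ne_zero_iff]
  rw [Ne, AdjoinRoot.mk_eq_zero]
  intro hd
  have hpl : pl u ≠ 0 := by
    obtain ⟨i, hi⟩ := hu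
    intro h0
    apply hi
    have h2 : ∀ i : Fin 3, (pl u).coeff i = u i := by
      intro i
      fin_cases i <;> simp [pl, coeff_X, coeff_C, coeff_X_pow]
    rw [← h2, h0, coeff_zero]
  have h3 := natDegree_le_of_dvd hd hpl
  rw [cub_natDegree] at h3
  have h4 : (pl u).natDegree ≤ 2 := by
    unfold pl
    compute_degree
  omega

end field

section place

variable {F : Type} [Field F]

/-- The value at infinity. -/
noncomputable def rho : OInf F →+* F where
  toFun x := (x : RatFunc F).num.coeff (x : RatFunc F).denom.natDegree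
  map_one' := by simp
  map_zero' := by simp
  map_add' x y := by
    apply WUW.ofX_inj
    rw [map_add]
    exact WUW.plcI.map_add x.1 x.2 y.1 y.2
  map_mul' x y := by
    apply WUW.ofX_inj
    rw [map_mul]
    exact WUW.plcI.map_mul x.1 x.2 y.1 y.2

theorem rI_eq (x : OInf F) : WUW.rI (x : RatFunc F) = AdjoinRoot.of X (rho x) := rfl

theorem rho_div (p : F[X]) (M : ℕ) (hp : p.natDegree ≤ M)
    (h : algebraMap F[X] (RatFunc F) p / (RatFunc.X : RatFunc F) ^ M ∈ OInf F) :
    rho ⟨_, h⟩ = p.coeff M := by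
  apply WUW.ofX_inj
  rw [← rI_eq, (WUW.rI_div M p hp).2, WUW.mkX, coeff_reflect]
  congr 2

theorem rho_ne {x : OInf F} (h : rho x ≠ 0) : (x : RatFunc F) ≠ 0 ∧
    (x : RatFunc F).intDegree = 0 := by
  have h0 : (x : RatFunc F) ≠ 0 := by
    intro h0
    apply h
    have : x = 0 := Subtype.ext h0
    rw [this, map_zero]
  refine ⟨h0, ?_⟩
  have h1 : (x : RatFunc F).intDegree ≤ 0 := x.2
  have h2 : (x : RatFunc F)⁻¹ ∈ OInf F := by
    refine WUW.plcI.div_mem x.2 ?_
    rw [rI_eq]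
    intro h3
    exact h (WUW.ofX_inj (by rw [h3, map_zero]))
  have h3 : (x : RatFunc F)⁻¹.intDegree ≤ 0 := h2
  rw [RatFunc.intDegree_inv] at h3
  omega

theorem rho_ne_zero {x : OInf F} (h0 : (x : RatFunc F) ≠ 0) (h : (x : RatFunc F).intDegree = 0) :
    rho x ≠ 0 := by
  intro h1
  unfold rho at h1
  simp only [RingHom.coe_mk, MonoidHom.coe_mk, OneHom.coe_mk] at h1
  have h2 : (x : RatFunc F).num.natDegree = (x : RatFunc F).denom.natDegree := by
    unfold RatFunc.intDegree at h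
    omega
  rw [← h2, coeff_natDegree, leadingCoeff_eq_zero] at h1
  exact h0 (RatFunc.num_eq_zero_iff.1 h1)

theorem gm_scale {K : Type} [Field K] (a b c s x e : K) (hs : s ≠ 0) (u v : Fin 3 → K)
    (hv : ∀ i : Fin 3, v i * x = u i * s ^ (i : ℕ)) (l : ℕ) :
    (Matrix.diagonal fun i : Fin 3 => e * s * (s ^ (i : ℕ))⁻¹)ᵀ *
      gm (a * s) (b * s ^ 2) (c * s ^ 3) u l *
      (Matrix.diagonal fun i : Fin 3 => e * s * (s ^ (i : ℕ))⁻¹) =
    (e ^ 2 * x * s ^ l) • gm a b c v l := by
  have h : ∀ k, tt (a * s) (b * s ^ 2) (c * s ^ 3) k = s ^ k * tt a b c k / s ^ 2 := by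
    intro k
    rw [eq_div_iff (pow_ne_zero 2 hs)]
    exact tt_scale a b c s k
  have h0 : u 0 = v 0 * x := by
    have := hv 0
    simp at this
    exact this.symm
  have h1 : u 1 = v 1 * x / s := by
    have := hv 1
    simp at this
    rw [eq_div_iff hs]
    exact this.symm
  have h2 : u 2 = v 2 * x / s ^ 2 := by
    have := hv 2
    simp at this
    rw [eq_div_iff (pow_ne_zero 2 hs)]
    exact this.symm
  ext i j
  rw [diagonal_transpose, mul_diagonal, diagonal_mul, Matrix.smul_apply]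
  simp only [gm, Matrix.of_apply, h, h0, h1, h2, pow_add, smul_eq_mul]
  field_simp

theorem main (hNGH : NGHStmt) (n : ℕ) (f : F[X] × F[X] × F[X]) (hf : f ∈ Fam F n)
    (hNR : NR (top3 n f)) (h : (RatFunc F)[X]) (hcop : IsCoprime h (cubK f))
    (hsq : IsSquare (Algebra.norm (RatFunc F) (AdjoinRoot.mk (cubK f) h))) :
    ∃ g : Matrix (Fin 3) (Fin 3) (RatFunc F), g.det ≠ 0 ∧ GI (Iinf F) (gᵀ * g0 f h * g) ∧
      MI (Iinf F) (((RatFunc.X : RatFunc F) ^ (2 * n))⁻¹ • (gᵀ * g1 f h * g)) := by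
  classical
  have hX0 : (RatFunc.X : RatFunc F) ≠ 0 := RatFunc.X_ne_zero
  obtain ⟨s, hs⟩ : ∃ s : RatFunc F, s = RatFunc.X ^ (2 * n) := ⟨_, rfl⟩
  have hs0 : s ≠ 0 := by rw [hs]; exact pow_ne_zero _ hX0
  obtain ⟨a, ha, hra⟩ : ∃ a : OInf F, (kf f).1 = a * s ∧ rho a = f.1.coeff (2 * n) := by
    refine ⟨⟨_, (WUW.rI_div (2 * n) f.1 hf.1).1⟩, ?_, rho_div _ _ hf.1 _⟩
    rw [hs]
    simp only [kf]
    field_simp
  obtain ⟨b, hb, hrb⟩ : ∃ b : OInf F, (kf f).2.1 = b * s ^ 2 ∧ rho b = f.2.1.coeff (4 * n) := by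
    refine ⟨⟨_, (WUW.rI_div (4 * n) f.2.1 hf.2.1).1⟩, ?_, rho_div _ _ hf.2.1 _⟩
    rw [hs, ← pow_mul]
    simp only [kf]
    rw [show 2 * n * 2 = 4 * n by ring]
    field_simp
  obtain ⟨c, hc, hrc⟩ : ∃ c : OInf F, (kf f).2.2 = c * s ^ 3 ∧ rho c = f.2.2.coeff (6 * n) := by
    refine ⟨⟨_, (WUW.rI_div (6 * n) f.2.2 hf.2.2).1⟩, ?_, rho_div _ _ hf.2.2 _⟩
    rw [hs, ← pow_mul]
    simp only [kf]
    rw [show 2 * n * 3 = 6 * n by ring]
    field_simp
  obtain ⟨u, hu⟩ := exists_pl (kf f).1 (kf f).2.1 (kf f).2.2 h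
  have hu0 : ∃ i, u i ≠ 0 := by
    by_contra hcon
    push Not at hcon
    have h1 : pl u = 0 := by simp [pl, hcon]
    rw [h1, sub_zero] at hu
    have h2 : IsUnit (cub (kf f).1 (kf f).2.1 (kf f).2.2) := hcop.isUnit_of_dvd' hu dvd_rfl
    have h3 := natDegree_eq_zero_of_isUnit h2
    rw [cub_natDegree] at h3
    omega
  obtain ⟨m, hm, hmax⟩ := Finset.exists_max_image (Finset.univ.filter fun i => u i ≠ 0)
    (fun i : Fin 3 => (u i * s ^ (i : ℕ)).intDegree) (by
      obtain ⟨i, hi⟩ := hu0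
      exact ⟨i, by simpa using hi⟩)
  obtain ⟨d, hd⟩ : ∃ d : ℤ, d = (u m * s ^ (m : ℕ)).intDegree := ⟨_, rfl⟩
  rw [← hd] at hmax
  have hm0 : u m ≠ 0 := by simpa using hm
  have hdeg : ∀ i, u i ≠ 0 → (u i * s ^ (i : ℕ) * ((RatFunc.X : RatFunc F) ^ d)⁻¹).intDegree =
      (u i * s ^ (i : ℕ)).intDegree - d := by
    intro i hi
    rw [RatFunc.intDegree_mul (mul_ne_zero hi (pow_ne_zero _ hs0))
      (inv_ne_zero (zpow_ne_zero _ hX0)), RatFunc.intDegree_inv, BIR2.intDegree_X_zpow]
    ring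
  have hmem : ∀ i, u i * s ^ (i : ℕ) * ((RatFunc.X : RatFunc F) ^ d)⁻¹ ∈ OInf F := by
    intro i
    by_cases hi : u i = 0
    · rw [hi, zero_mul, zero_mul]
      exact zero_mem _
    · show _ ≤ (0 : ℤ)
      rw [hdeg i hi]
      have := hmax i (by simpa using hi)
      omega
  obtain ⟨v, hv⟩ : ∃ v : Fin 3 → OInf F, v = fun i => ⟨_, hmem i⟩ := ⟨_, rfl⟩
  have hv1 : ∀ i : Fin 3, (v i : RatFunc F) * (RatFunc.X : RatFunc F) ^ d =
      u i * s ^ (i : ℕ) := by
    intro i
    rw [hv]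
    simp only
    have := zpow_ne_zero d hX0
    field_simp
  have hvm : rho (v m) ≠ 0 := by
    apply rho_ne_zero
    · rw [hv]
      exact mul_ne_zero (mul_ne_zero hm0 (pow_ne_zero _ hs0)) (inv_ne_zero (zpow_ne_zero _ hX0))
    · rw [hv]
      simp only
      rw [hdeg m hm0, ← hd, sub_self]
  have hM : rho (gm a b c v 0).det ≠ 0 := by
    rw [RingHom.map_det, RingHom.mapMatrix_apply, gm_map]
    refine det_gm_ne _ _ _ hNGH _ ⟨m, hvm⟩ ?_
    rw [hra, hrb, hrc]
    exact hNR
  obtain ⟨hD0, hD1⟩ := rho_ne hM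
  have hdetv : ((gm a b c v 0).map ((OInf F).subtype)).det = ((gm a b c v 0).det : RatFunc F) := by
    rw [← RingHom.mapMatrix_apply, ← RingHom.map_det]
    rfl
  have hsub : ∀ l, (gm a b c v l).map ((OInf F).subtype) =
      gm (a : RatFunc F) b c (fun i => (v i : RatFunc F)) l := by
    intro l
    rw [gm_map]
    rfl
  have hg0 : g0 f h = gm ((a : RatFunc F) * s) (b * s ^ 2) (c * s ^ 3) u 0 := by
    rw [← ha, ← hb, ← hc]
    exact gr0_eq _ _ _ h u hu
  have hg1 : g1 f h = gm ((a : RatFunc F) * s) (b * s ^ 2) (c * s ^ 3) u 1 := by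
    rw [← ha, ← hb, ← hc]
    exact gr1_eq _ _ _ h u hu
  have key := fun l e => gm_scale (a : RatFunc F) b c s (RatFunc.X ^ d) e hs0 u
    (fun i => (v i : RatFunc F)) hv1 l
  -- parity
  obtain ⟨z, hz⟩ := hsq
  have hdet : (g0 f h).det = -(z * z) := by
    rw [← hz]
    exact (hNGH (RatFunc F) _ _ _ h).2.1
  have hdet2 : (g0 f h).det = ((RatFunc.X : RatFunc F) ^ d) ^ 3 *
      ((gm a b c v 0).det : RatFunc F) := by
    have h1 := congrArg Matrix.det (key 0 1)
    rw [Matrix.det_mul, Matrix.det_mul, det_transpose, det_diagonal, ← hg0, Matrix.det_smul,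
      ← hsub, hdetv, Fin.prod_univ_three] at h1
    simp only [Fin.val_zero, Fin.val_one, Fin.val_two, pow_zero, one_mul, mul_one, inv_one,
      Fintype.card_fin, pow_one, one_pow] at h1
    rw [← h1]
    field_simp
  have hpar : 2 * z.intDegree = 3 * d := by
    have hz0 : z ≠ 0 := by
      rintro rfl
      rw [hdet2] at hdet
      simp only [mul_zero, neg_zero, mul_eq_zero] at hdet
      rcases hdet with h1 | h1
      · exact pow_ne_zero 3 (zpow_ne_zero d hX0) h1
      · exact hD0 h1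
    have h1 := congrArg RatFunc.intDegree (hdet2.symm.trans hdet)
    rw [RatFunc.intDegree_neg, RatFunc.intDegree_mul hz0 hz0, RatFunc.intDegree_mul
      (pow_ne_zero 3 (zpow_ne_zero d hX0)) hD0, hD1, ← zpow_natCast, ← _root_.zpow_mul,
      BIR2.intDegree_X_zpow] at h1
    push_cast at h1
    linarith
  obtain ⟨l, hl⟩ : ∃ l, d = 2 * l := ⟨z.intDegree - d, by omega⟩
  have he : ((RatFunc.X : RatFunc F) ^ (-l)) ^ 2 * RatFunc.X ^ d = 1 := by
    rw [hl, ← zpow_natCast, ← _root_.zpow_mul, ← zpow_add₀ hX0]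
    push_cast
    rw [show -l * 2 + 2 * l = 0 by ring, zpow_zero]
  refine ⟨Matrix.diagonal fun i : Fin 3 => (RatFunc.X : RatFunc F) ^ (-l) * s *
    (s ^ (i : ℕ))⁻¹, ?_, ?_, ?_⟩
  · rw [det_diagonal]
    exact Finset.prod_ne_zero_iff.2 fun i _ => mul_ne_zero (mul_ne_zero (zpow_ne_zero _ hX0) hs0)
      (inv_ne_zero (pow_ne_zero _ hs0))
  · rw [hg0, key, he, pow_zero, mul_one, one_smul, ← hsub]
    refine ⟨fun i j => (gm a b c v 0 i j).2, ?_⟩
    rw [hdetv]
    refine ⟨hD0, ((gm a b c v 0).det).2, ?_⟩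
    show _ ≤ (0 : ℤ)
    rw [RatFunc.intDegree_inv, hD1, neg_zero]
  · rw [hg1, key, he, pow_one, one_mul, ← hs, smul_smul, inv_mul_cancel₀ hs0, one_smul, ← hsub]
    exact fun i j => (gm a b c v 1 i j).2

end place

end Pool.RZ.INF

namespace Pool.RZ

open Polynomial Matrix Pool.AVR Pool.AVS

/-- INF. -/
theorem inf_thm (hNGH : NGHStmt) : INFStmt := by
  intro F _ _ n f hf hNR h hcop hsq
  exact INF.main hNGH n f hf hNR h hcop hsq

end Pool.RZ
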